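import Pool.Agent.Helper20.Mono.GoalsG

/-!
Packet G4 of MP_aa7fc1_ag: linear algebra.
-/

namespace Mono

namespace G4

open Finset

variable {n : ℕ}

/-- The orthogonal space. -/
def Vsp (E : Set (Fin n → ℤ)) : Submodule ℝ (Fin n → ℝ) where
  carrier := {y | ∀ e ∈ E, y ⬝ᵥ toR e = 0}
  zero_mem' := fun e _ => zero_dotProduct _
  add_mem' := fun {a b} ha hb e he => by rw [add_dotProduct, ha e he, hb e he, add_zero]
  smul_mem' := fun c x hx e he => by rw [smul_dotProduct, hx e he, smul_zero]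

theorem mem_Vsp {E : Set (Fin n → ℤ)} {y : Fin n → ℝ} :
    y ∈ Vsp E ↔ ∀ e ∈ E, y ⬝ᵥ toR e = 0 := Iff.rfl

theorem toR_sub (u v : Fin n → ℤ) : toR (u - v) = toR u - toR v := by
  funext i; simp

theorem toR_zsmul (k : ℤ) (u : Fin n → ℤ) : toR (k • u) = (k : ℝ) • toR u := by
  funext i; simp

theorem toR_dot (u v : Fin n → ℤ) : toR u ⬝ᵥ toR v = ((u ⬝ᵥ v : ℤ) : ℝ) := by
  simp [dotProduct]

theorem dot_of_linear (f : (Fin n → ℝ) →ₗ[ℝ] ℝ) : ∃ y : Fin n → ℝ, ∀ x, y ⬝ᵥ x = f x := by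
  refine ⟨fun i => f (Pi.single i 1), fun x => ?_⟩
  conv_rhs => rw [← Finset.univ_sum_single x]
  rw [map_sum, dotProduct]
  refine Finset.sum_congr rfl fun i _ => ?_
  have h1 : (Pi.single i (x i) : Fin n → ℝ) = x i • Pi.single i (1 : ℝ) := by
    funext j
    by_cases hj : j = i
    · subst hj; simp
    · simp [hj]
  rw [h1, map_smul, smul_eq_mul, mul_comm]

/-- A coordinate as a linear form. -/
noncomputable def crdL {F : Finset (Fin n → ℤ)} (h : Indep F) (hc : F.card = n)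
    (u : Fin n → ℤ) : (Fin n → ℝ) →ₗ[ℝ] ℝ where
  toFun := fun x => crd F x u
  map_add' := fun x y => crd_add h hc x y u
  map_smul' := fun a x => crd_smul h hc a x u

/-- `psi` as a linear form. -/
noncomputable def psiL (Z : Finset (Fin n → ℤ)) {F : Finset (Fin n → ℤ)} (h : Indep F)
    (hc : F.card = n) : (Fin n → ℝ) →ₗ[ℝ] ℝ where
  toFun := fun x => psi Z F x
  map_add' := fun x y => psi_add Z h hc x y
  map_smul' := fun a x => psi_smul Z h hc a x

theorem mem_edges_sub {Z τ : Finset (Fin n → ℤ)} {u v : Fin n → ℤ} (hu : u ∈ τ \ Z)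
    (hv : v ∈ τ \ Z) : u - v ∈ edges Z τ := Or.inl ⟨u, hu, v, hv, rfl⟩

theorem mem_edges_Z {Z τ : Finset (Fin n → ℤ)} {u : Fin n → ℤ} (hu : u ∈ τ)
    (hv : u ∈ Z) : u ∈ edges Z τ := Or.inr ⟨hu, hv⟩

theorem Vsp_eq {Z τ : Finset (Fin n → ℤ)} {y : Fin n → ℝ} (hy : y ∈ Vsp (edges Z τ))
    {u v : Fin n → ℤ} (hu : u ∈ τ \ Z) (hv : v ∈ τ \ Z) : y ⬝ᵥ toR u = y ⬝ᵥ toR v := by
  have h := hy _ (mem_edges_sub hu hv)
  rw [toR_sub, dotProduct_sub] at h
  linarith

theorem Vsp_zero {Z τ : Finset (Fin n → ℤ)} {y : Fin n → ℝ} (hy : y ∈ Vsp (edges Z τ))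
    {u : Fin n → ℤ} (hu : u ∈ τ) (hv : u ∈ Z) : y ⬝ᵥ toR u = 0 := hy _ (mem_edges_Z hu hv)

theorem Vsp_intro {Z τ : Finset (Fin n → ℤ)} {y : Fin n → ℝ} (r : ℝ)
    (h1 : ∀ u ∈ τ \ Z, y ⬝ᵥ toR u = r) (h2 : ∀ u ∈ τ ∩ Z, y ⬝ᵥ toR u = 0) :
    y ∈ Vsp (edges Z τ) := by
  rintro e (⟨u, hu, v, hv, rfl⟩ | ⟨h3, h4⟩)
  · rw [toR_sub, dotProduct_sub, h1 u hu, h1 v hv, sub_self]
  · exact h2 e (Finset.mem_inter.2 ⟨h3, h4⟩)

theorem finrank_V_le (Φ : Fan n) {Z τ F : Finset (Fin n → ℤ)} (hF : F ∈ Φ.mx) (hτ : τ ⊆ F)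
    {u₀ : Fin n → ℤ} (hu₀ : u₀ ∈ τ \ Z) :
    Module.finrank ℝ (Vsp (edges Z τ)) + τ.card ≤ n + 1 := by
  classical
  have hFi := Φ.mx_indep F hF
  have hFc := Φ.mx_card F hF
  let G : Finset (Fin n → ℤ) := insert u₀ (F \ τ)
  let φ : Vsp (edges Z τ) →ₗ[ℝ] (G → ℝ) :=
    { toFun := fun y g => (y : Fin n → ℝ) ⬝ᵥ toR g.1
      map_add' := fun a b => by
        funext g
        simp [add_dotProduct]
      map_smul' := fun c a => by
        funext g
        simp [smul_dotProduct] }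
  have hinj : Function.Injective φ := by
    rw [injective_iff_map_eq_zero]
    intro y hy
    have h1 : ∀ g ∈ G, (y : Fin n → ℝ) ⬝ᵥ toR g = 0 := fun g hg => congrFun hy ⟨g, hg⟩
    have h2 : ∀ g ∈ F, (y : Fin n → ℝ) ⬝ᵥ toR g = 0 := by
      intro g hg
      by_cases hgτ : g ∈ τ
      · by_cases hgZ : g ∈ Z
        · exact Vsp_zero y.2 hgτ hgZ
        · rw [Vsp_eq y.2 (Finset.mem_sdiff.2 ⟨hgτ, hgZ⟩) hu₀]
          exact h1 u₀ (Finset.mem_insert_self _ _)
      · exact h1 g (Finset.mem_insert_of_mem (Finset.mem_sdiff.2 ⟨hg, hgτ⟩))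
    apply Subtype.ext
    have h3 : ∀ x : Fin n → ℝ, (y : Fin n → ℝ) ⬝ᵥ x = 0 := by
      intro x
      rw [dot_eq_sum_crd hFi hFc]
      exact Finset.sum_eq_zero fun u hu => by rw [h2 u hu, mul_zero]
    funext i
    have h4 := h3 (Pi.single i 1)
    rw [dotProduct_single, mul_one] at h4
    exact h4
  have h5 := LinearMap.finrank_le_finrank_of_injective hinj
  rw [Module.finrank_fintype_fun_eq_card, Fintype.card_coe] at h5
  have h6 : G.card ≤ (F \ τ).card + 1 := Finset.card_insert_le _ _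
  have h7 : (F \ τ).card + τ.card = n := by
    rw [Finset.card_sdiff_add_card_eq_card hτ, hFc]
  omega

theorem eq_V (Φ : Fan n) {Z τ F : Finset (Fin n → ℤ)} (hF : F ∈ Φ.mx) (hτ : τ ⊆ F)
    {u₀ : Fin n → ℤ} (hu₀ : u₀ ∈ τ \ Z) (W : Submodule ℝ (Fin n → ℝ))
    (hW : W ≤ Vsp (edges Z τ)) (hc : n + 1 ≤ Module.finrank ℝ W + τ.card) :
    W = Vsp (edges Z τ) := by
  have h := finrank_V_le Φ hF hτ hu₀
  exact Submodule.eq_of_le_of_finrank_le hW (by omega)

theorem mem_span_toR {ε : Finset (Fin n → ℤ)} {z : Fin n → ℝ}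
    (h : z ∈ Submodule.span ℝ (toR '' (ε : Set (Fin n → ℤ)))) :
    ∃ c : (Fin n → ℤ) → ℝ, z = ∑ u ∈ ε, c u • toR u := by
  classical
  induction h using Submodule.span_induction with
  | mem x hx =>
      obtain ⟨u, hu, rfl⟩ := hx
      refine ⟨fun v => if v = u then 1 else 0, ?_⟩
      rw [Finset.sum_eq_single u]
      · simp
      · intro b _ hb
        simp [hb]
      · intro h
        exact absurd hu h
  | zero => exact ⟨0, by simp⟩
  | add x y _ _ hx hy =>
      obtain ⟨c, rfl⟩ := hx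
      obtain ⟨d, rfl⟩ := hy
      refine ⟨c + d, ?_⟩
      rw [← Finset.sum_add_distrib]
      exact Finset.sum_congr rfl fun u _ => by rw [Pi.add_apply, add_smul]
  | smul a x _ hx =>
      obtain ⟨c, rfl⟩ := hx
      refine ⟨a • c, ?_⟩
      rw [Finset.smul_sum]
      exact Finset.sum_congr rfl fun u _ => by rw [Pi.smul_apply, smul_assoc]

theorem span_toR_mem {ε : Finset (Fin n → ℤ)} (c : (Fin n → ℤ) → ℝ) :
    ∑ u ∈ ε, c u • toR u ∈ Submodule.span ℝ (toR '' (ε : Set (Fin n → ℤ))) :=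
  Submodule.sum_mem _ fun u hu => Submodule.smul_mem _ _ (Submodule.subset_span ⟨u, hu, rfl⟩)

theorem sat_span {D : Set (Fin n → ℤ)} {x : Fin n → ℤ} (h : x ∈ sat D) :
    toR x ∈ Submodule.span ℝ (toR '' D) := by
  obtain ⟨k, hk, hx⟩ := h
  have h1 : ∀ y ∈ AddSubgroup.closure D, toR y ∈ Submodule.span ℝ (toR '' D) := by
    intro y hy
    induction hy using AddSubgroup.closure_induction with
    | mem y hy => exact Submodule.subset_span ⟨y, hy, rfl⟩
    | zero => rw [toR_zero]; exact Submodule.zero_mem _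
    | add y z _ _ hy hz => rw [toR_add]; exact Submodule.add_mem _ hy hz
    | neg y _ hy =>
        have : toR (-y) = - toR y := by funext i; simp
        rw [this]
        exact Submodule.neg_mem _ hy
  have h2 := h1 _ hx
  rw [toR_zsmul] at h2
  have hk' : (k : ℝ) ≠ 0 := by exact_mod_cast hk
  have h3 := Submodule.smul_mem _ ((k : ℝ)⁻¹) h2
  rwa [smul_smul, inv_mul_cancel₀ hk', one_smul] at h3

theorem finrank_span_indep {ε : Finset (Fin n → ℤ)} (h : Indep ε) :
    Module.finrank ℝ (Submodule.span ℝ (toR '' (ε : Set (Fin n → ℤ)))) = ε.card := by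
  classical
  have h1 := finrank_span_eq_card h
  rw [Fintype.card_coe] at h1
  have h2 : toR '' (ε : Set (Fin n → ℤ)) = Set.range (fun u : ε => toR (u : Fin n → ℤ)) := by
    ext x
    constructor
    · rintro ⟨u, hu, rfl⟩
      exact ⟨⟨u, hu⟩, rfl⟩
    · rintro ⟨u, rfl⟩
      exact ⟨u.1, u.2, rfl⟩
  rw [h2]
  exact h1

theorem notMem_span_of_indep {ε : Finset (Fin n → ℤ)} {a : Fin n → ℤ} (ha : a ∉ ε)
    (h : Indep (insert a ε)) : toR a ∉ Submodule.span ℝ (toR '' (ε : Set (Fin n → ℤ))) := by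
  classical
  intro hm
  obtain ⟨c, hc⟩ := mem_span_toR hm
  have h1 : ∑ u ∈ insert a ε, (if u = a then (-1 : ℝ) else c u) • toR u = 0 := by
    rw [Finset.sum_insert ha]
    have h2 : ∑ u ∈ ε, (if u = a then (-1 : ℝ) else c u) • toR u = ∑ u ∈ ε, c u • toR u := by
      refine Finset.sum_congr rfl fun u hu => ?_
      have : u ≠ a := fun h => ha (h ▸ hu)
      simp [this]
    rw [h2, ← hc]
    simp
  have h3 := h.sum_eq_zero h1 a (Finset.mem_insert_self _ _)
  simp at h3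

/-- The coordinate of the new vector. -/
theorem crd_insert_eq {ε : Finset (Fin n → ℤ)} {a : Fin n → ℤ} (ha : a ∉ ε)
    (h : Indep (insert a ε)) {k z : Fin n → ℝ} {r : ℝ}
    (hz : z ∈ Submodule.span ℝ (toR '' (ε : Set (Fin n → ℤ)))) (hk : k = r • toR a + z) :
    crd (insert a ε) k a = r := by
  classical
  obtain ⟨c, hc⟩ := mem_span_toR hz
  have h1 : k = ∑ u ∈ insert a ε, (if u = a then r else c u) • toR u := by
    rw [Finset.sum_insert ha]
    have h2 : ∑ u ∈ ε, (if u = a then r else c u) • toR u = ∑ u ∈ ε, c u • toR u := by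
      refine Finset.sum_congr rfl fun u hu => ?_
      have : u ≠ a := fun h => ha (h ▸ hu)
      simp [this]
    rw [h2, ← hc, hk]
    simp
  rw [crd_eq h h1 (Finset.mem_insert_self _ _)]
  simp

/-! ### closures -/

theorem idx_congr {B B' : Set (Fin n → ℤ)} (h : AddSubgroup.closure B = AddSubgroup.closure B') :
    idx B = idx B' := by
  have h1 : sat B = sat B' := by
    ext x
    show (∃ k : ℤ, k ≠ 0 ∧ k • x ∈ AddSubgroup.closure B) ↔
      (∃ k : ℤ, k ≠ 0 ∧ k • x ∈ AddSubgroup.closure B')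
    rw [h]
  unfold idx
  rw [h1, h]

theorem closure_edges_insert {Z τ : Finset (Fin n → ℤ)} {u₀ : Fin n → ℤ} (hu₀ : u₀ ∈ τ \ Z)
    (u : Fin n → ℤ) : AddSubgroup.closure (edges Z (insert u τ)) =
      AddSubgroup.closure (insert (rel Z u₀ u) (edges Z τ)) := by
  classical
  have hu₀' := Finset.mem_sdiff.1 hu₀
  apply le_antisymm
  · rw [AddSubgroup.closure_le]
    have key : ∀ a ∈ (insert u τ) \ Z,
        a - u₀ ∈ AddSubgroup.closure (insert (rel Z u₀ u) (edges Z τ)) := by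
      intro a ha
      obtain ⟨ha1, ha2⟩ := Finset.mem_sdiff.1 ha
      rcases Finset.mem_insert.1 ha1 with rfl | ha3
      · apply AddSubgroup.subset_closure
        left
        unfold rel
        rw [if_neg ha2]
      · apply AddSubgroup.subset_closure
        right
        exact mem_edges_sub (Finset.mem_sdiff.2 ⟨ha3, ha2⟩) hu₀
    rintro x (⟨a, ha, b, hb, rfl⟩ | ⟨h1, h2⟩)
    · have : a - b = (a - u₀) - (b - u₀) := by abel
      rw [this]
      exact AddSubgroup.sub_mem _ (key a ha) (key b hb)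
    · apply AddSubgroup.subset_closure
      rcases Finset.mem_insert.1 h1 with rfl | h3
      · left
        unfold rel
        rw [if_pos h2]
      · right
        exact mem_edges_Z h3 h2
  · rw [AddSubgroup.closure_le]
    rintro x (rfl | hx)
    · apply AddSubgroup.subset_closure
      unfold rel
      split_ifs with h
      · exact mem_edges_Z (Finset.mem_insert_self _ _) h
      · exact mem_edges_sub (Finset.mem_sdiff.2 ⟨Finset.mem_insert_self _ _, h⟩)
          (Finset.mem_sdiff.2 ⟨Finset.mem_insert_of_mem hu₀'.1, hu₀'.2⟩)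
    · apply AddSubgroup.subset_closure
      rcases hx with ⟨a, ha, b, hb, rfl⟩ | ⟨h1, h2⟩
      · have ha' := Finset.mem_sdiff.1 ha
        have hb' := Finset.mem_sdiff.1 hb
        exact mem_edges_sub (Finset.mem_sdiff.2 ⟨Finset.mem_insert_of_mem ha'.1, ha'.2⟩)
          (Finset.mem_sdiff.2 ⟨Finset.mem_insert_of_mem hb'.1, hb'.2⟩)
      · exact mem_edges_Z (Finset.mem_insert_of_mem h1) h2

theorem closure_insert_edges {Z τ : Finset (Fin n → ℤ)} {u₀ : Fin n → ℤ} (hu₀ : u₀ ∈ τ \ Z) :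
    AddSubgroup.closure (τ : Set (Fin n → ℤ)) =
      AddSubgroup.closure (insert u₀ (edges Z τ)) := by
  classical
  have hu₀' := Finset.mem_sdiff.1 hu₀
  apply le_antisymm
  · rw [AddSubgroup.closure_le]
    intro u hu
    by_cases hZ : u ∈ Z
    · exact AddSubgroup.subset_closure (Or.inr (mem_edges_Z hu hZ))
    · have h1 : u = (u - u₀) + u₀ := by abel
      rw [h1]
      exact AddSubgroup.add_mem _
        (AddSubgroup.subset_closure (Or.inr (mem_edges_sub (Finset.mem_sdiff.2 ⟨hu, hZ⟩) hu₀)))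
        (AddSubgroup.subset_closure (Or.inl rfl))
  · rw [AddSubgroup.closure_le]
    rintro x (rfl | hx)
    · exact AddSubgroup.subset_closure hu₀'.1
    · rcases hx with ⟨a, ha, b, hb, rfl⟩ | ⟨h1, h2⟩
      · exact AddSubgroup.sub_mem _
          (AddSubgroup.subset_closure (Finset.mem_sdiff.1 ha).1)
          (AddSubgroup.subset_closure (Finset.mem_sdiff.1 hb).1)
      · exact AddSubgroup.subset_closure h1

theorem volZ_eq (Z τ : Finset (Fin n → ℤ)) : volZ Z τ = idx (edges Z τ) := rfl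

end G4

end Mono
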