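import Pool.Agent.Helper50.Mono.Right

/-!
Packet G4 of MP_aa7fc1_ag: the assembly of the primal formula.
-/

namespace Mono

namespace G4

open Finset

variable {n : ℕ}

theorem NA_zero {A : Finset (Fin n → ℤ)} {a u₀ : Fin n → ℤ} (hu₀ : u₀ ∈ A)
    (hA : ∀ v ∈ A, ∀ i, 0 ≤ v i) (ha : ∀ i, 0 ≤ a i) (h : a ⬝ᵥ u₀ = 0) : NA A a = 0 := by
  unfold NA
  apply IsLeast.csInf_eq
  constructor
  · exact ⟨u₀, hu₀, h.symm⟩
  · rintro z ⟨v, hv, rfl⟩
    exact Finset.sum_nonneg fun i _ => mul_nonneg (ha i) (hA v hv i)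

open Classical in
theorem K_eq (hK : KFormula) (hL : LaplaceOrthant) (Φ T : Fan n) {Z τ : Finset (Fin n → ℤ)}
    (hτ : Φ.IsFace τ) {u₀ : Fin n → ℤ} (hu₀ : u₀ ∈ τ \ Z) (s : ℝ) {w : Fin n → ℝ}
    (hw : Φ.Generic w) (hwT : ∀ δ ∈ T.mx, ∀ a ∈ δ, w ⬝ᵥ toR a ≠ 0) :
    Φ.Esum τ w 1 =
      ∑ ε ∈ T.faces.filter (fun ε => ε.card + τ.card = n ∧ InDual (Φ.vert \ Z) Z τ ε),
        (1 / ∏ b ∈ ε, lf (Φ.vert \ Z) s w b) * ((idx (ε : Set (Fin n → ℤ)) : ℝ) *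
          (if τ.card = (cs τ).card ∧ (∀ a ∈ ε, ∀ i ∈ cs τ, a i = 0)
            then 1 / (idx (τ : Set (Fin n → ℤ)) : ℝ) else 0)) := by
  have hu₀' := Finset.mem_sdiff.1 hu₀
  have hu₀A : u₀ ∈ Φ.vert \ Z := Finset.mem_sdiff.2 ⟨Fan.IsFace.subset_vert Φ hτ hu₀'.1, hu₀'.2⟩
  rw [hK n Φ τ hτ w hw]
  by_cases hc : (cs τ).card = τ.card
  · rw [if_pos hc]
    have hsupp : ∀ v ∈ τ, ∀ i, i ∉ cs τ → v i = 0 := by
      intro v hv i hi
      by_contra h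
      exact hi (Finset.mem_filter.2 ⟨Finset.mem_univ _, v, hv, h⟩)
    have hdot : ∀ a : Fin n → ℤ, (∀ i ∈ cs τ, a i = 0) → ∀ v ∈ τ, a ⬝ᵥ v = 0 := by
      intro a h v hv
      refine Finset.sum_eq_zero fun i _ => ?_
      by_cases hi : i ∈ cs τ
      · rw [h i hi, zero_mul]
      · rw [hsupp v hv i hi, mul_zero]
    have hNA : ∀ ε, T.IsFace ε → (∀ a ∈ ε, ∀ i ∈ cs τ, a i = 0) → ∀ a ∈ ε,
        NA (Φ.vert \ Z) a = 0 := by
      intro ε hε h a ha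
      exact NA_zero hu₀A (fun v hv i => Φ.vert_nonneg v (Finset.mem_sdiff.1 hv).1 i)
        (fun i => T.vert_nonneg a (Fan.IsFace.subset_vert T hε ha) i)
        (hdot a (h a ha) u₀ hu₀'.1)
    have hmem : ∀ ε, ε ∈ T.mxT (cs τ)ᶜ ↔
        T.IsFace ε ∧ ε.card + τ.card = n ∧ (∀ a ∈ ε, ∀ i ∈ cs τ, a i = 0) := by
      intro ε
      unfold Fan.mxT
      rw [Finset.mem_filter, Fan.mem_faces, Finset.card_compl, Fintype.card_fin]
      have h1 : (cs τ).card ≤ n := by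
        have := Finset.card_le_univ (cs τ)
        rwa [Fintype.card_fin] at this
      have h2 : ε.card = n - (cs τ).card ↔ ε.card + τ.card = n := by omega
      rw [h2]
      have h3 : (∀ u ∈ ε, ∀ i, i ∉ (cs τ)ᶜ → u i = 0) ↔ (∀ a ∈ ε, ∀ i ∈ cs τ, a i = 0) := by
        constructor
        · intro h a ha i hi
          exact h a ha i (by simpa using hi)
        · intro h a ha i hi
          exact h a ha i (by simpa using hi)
      rw [h3]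
    have hdual : ∀ ε, T.IsFace ε → (∀ a ∈ ε, ∀ i ∈ cs τ, a i = 0) →
        InDual (Φ.vert \ Z) Z τ ε := by
      intro ε hε h a ha
      refine ⟨fun v hv => ?_, fun v hv => ?_⟩
      · rw [hNA ε hε h a ha]
        exact hdot a (h a ha) v (Finset.mem_sdiff.1 hv).1
      · exact hdot a (h a ha) v (Finset.mem_inter.1 hv).1
    have hLap := hL n T (cs τ)ᶜ w (fun ε hε a ha => by
      obtain ⟨⟨G, hG, hs⟩, -, -⟩ := (hmem ε).1 hε
      exact hwT G hG a (hs ha)) (fun i _ => hw.2 i)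
    have h1 : 1 / ((idx (τ : Set (Fin n → ℤ)) : ℝ) * ∏ i ∈ (cs τ)ᶜ, w i) =
        (1 / (idx (τ : Set (Fin n → ℤ)) : ℝ)) * ∏ i ∈ (cs τ)ᶜ, (w i)⁻¹ := by
      rw [Finset.prod_inv_distrib, one_div, one_div, mul_inv]
    rw [h1, ← hLap, Finset.mul_sum]
    refine Eq.trans ?_ (Finset.sum_subset (s₁ := T.mxT (cs τ)ᶜ) ?_ ?_)
    · refine Finset.sum_congr rfl fun ε hε => ?_
      obtain ⟨h2, h3, h4⟩ := (hmem ε).1 hε
      rw [if_pos ⟨hc.symm, h4⟩]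
      have h5 : ∏ b ∈ ε, lf (Φ.vert \ Z) s w b = ∏ a ∈ ε, (w ⬝ᵥ toR a) := by
        refine Finset.prod_congr rfl fun a ha => ?_
        unfold lf
        rw [hNA ε h2 h4 a ha, Int.cast_zero, zero_mul, zero_add]
      rw [h5]
      ring
    · intro ε hε
      obtain ⟨h2, h3, h4⟩ := (hmem ε).1 hε
      rw [Finset.mem_filter, Fan.mem_faces]
      exact ⟨h2, h3, hdual ε h2 h4⟩
    · intro ε hε hn
      rw [Finset.mem_filter, Fan.mem_faces] at hε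
      obtain ⟨h2, h3, h4⟩ := hε
      rw [if_neg, mul_zero, mul_zero]
      rintro ⟨-, h5⟩
      exact hn ((hmem ε).2 ⟨h2, h3, h5⟩)
  · rw [if_neg hc]
    symm
    refine Finset.sum_eq_zero fun ε _ => ?_
    rw [if_neg, mul_zero, mul_zero]
    rintro ⟨h, -⟩
    exact hc h.symm

theorem step (hK : KFormula) (hLap : LaplaceOrthant) (hDual : DualLattice) (hSD : SideDual)
    (hSP : SidePrimal) (hI : IdxPos) (Φ T : Fan n) (Z : Finset (Fin n → ℤ)) (hN : Φ.Newton Z)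
    (hA : Adapted (Φ.vert \ Z) T) {w : Fin n → ℝ} (hw : Φ.Generic w) {s : ℝ}
    (hs : ∀ F ∈ Φ.mx, s + psi Z F w ≠ 0)
    (ha : ∀ δ ∈ T.mx, ∀ a ∈ δ, (NA (Φ.vert \ Z) a : ℝ) * s + w ⬝ᵥ toR a ≠ 0)
    (hwT : ∀ δ ∈ T.mx, ∀ a ∈ δ, w ⬝ᵥ toR a ≠ 0) {τ : Finset (Fin n → ℤ)}
    (hτ : Φ.IsFace τ) (hτZ : ¬ τ ⊆ Z)
    (ih : ∀ u, u ∉ τ → Φ.IsFace (insert u τ) →
      Jsum (Φ.vert \ Z) Z T (insert u τ) s w =
        (volZ Z (insert u τ) : ℝ) * Φ.Rsum Z (insert u τ) s w) :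
    Jsum (Φ.vert \ Z) Z T τ s w = (volZ Z τ : ℝ) * Φ.Rsum Z τ s w := by
  classical
  obtain ⟨u₀, hu1, hu2⟩ := Finset.not_subset.1 hτZ
  have hu₀ : u₀ ∈ τ \ Z := Finset.mem_sdiff.2 ⟨hu1, hu2⟩
  obtain ⟨F, hF, hτF⟩ := id hτ
  have hFi := Φ.mx_indep F hF
  have hFc := Φ.mx_card F hF
  obtain ⟨k, hk0⟩ := dot_of_linear (psiL Z hFi hFc)
  have hk1 : ∀ x, k ⬝ᵥ x = psi Z F x := hk0
  have hk : k ∈ Vsp (edges Z τ) := by
    apply Vsp_intro 1
    · intro v hv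
      have hv' := Finset.mem_sdiff.1 hv
      rw [hk1, psi_toR Z hFi (hτF hv'.1), if_neg hv'.2]
    · intro v hv
      have hv' := Finset.mem_inter.1 hv
      rw [hk1, psi_toR Z hFi (hτF hv'.1), if_pos hv'.2]
  have hL0 : k ⬝ᵥ (s • toR u₀ + w) ≠ 0 := by
    rw [hk1, psi_add Z hFi hFc, psi_smul Z hFi hFc, psi_toR Z hFi (hτF hu1), if_neg hu2, mul_one]
    exact hs F hF
  have hvol : ∀ ρ : Finset (Fin n → ℤ), (volZ Z ρ : ℝ) ≠ 0 := by
    intro ρ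
    have := hI n (edges Z ρ)
    rw [volZ_eq]
    exact_mod_cast this
  apply mul_left_cancel₀ hL0
  set U := Φ.vert.filter (fun u => u ∉ τ ∧ Φ.IsFace (insert u τ)) with hUdef
  have hU : ∀ u, u ∈ U ↔ u ∈ Φ.vert ∧ u ∉ τ ∧ Φ.IsFace (insert u τ) := by
    intro u
    rw [hUdef, Finset.mem_filter]
  have hright := right_side Φ hu₀ hk hw hs U hU
  have hleft := left_side Φ T hτ hu₀ hk ha
  have hKe := K_eq hK hLap Φ T hτ hu₀ s hw hwT
  rw [hleft]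
  have h1 : (k ⬝ᵥ (s • toR u₀ + w)) * ((volZ Z τ : ℝ) * Φ.Rsum Z τ s w) =
      (volZ Z τ : ℝ) * ((k ⬝ᵥ (s • toR u₀ + w)) * Φ.Rsum Z τ s w) := by ring
  rw [h1, hright]
  have h2 : ∀ ε ∈ T.faces.filter (fun ε => ε.card + τ.card = n ∧ InDual (Φ.vert \ Z) Z τ ε),
      (1 / ∏ b ∈ ε, lf (Φ.vert \ Z) s w b) *
        ∑ a ∈ T.vert.filter (fun a => a ∉ ε ∧ T.IsFace (insert a ε) ∧
          InDual (Φ.vert \ Z) Z τ (insert a ε)),
          crd (insert a ε) k a *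
            (idx ((insert a ε : Finset (Fin n → ℤ)) : Set (Fin n → ℤ)) : ℝ) =
      (volZ Z τ : ℝ) * ((k ⬝ᵥ toR u₀) * ((1 / ∏ b ∈ ε, lf (Φ.vert \ Z) s w b) *
        ((idx (ε : Set (Fin n → ℤ)) : ℝ) *
          (if τ.card = (cs τ).card ∧ (∀ a ∈ ε, ∀ i ∈ cs τ, a i = 0)
            then 1 / (idx (τ : Set (Fin n → ℤ)) : ℝ) else 0)))) +
      (volZ Z τ : ℝ) * ∑ u ∈ Φ.vert.filter (fun u => u ∉ τ ∧ Φ.IsFace (insert u τ) ∧
          InDual (Φ.vert \ Z) Z (insert u τ) ε),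
        (k ⬝ᵥ toR (rel Z u₀ u)) / (volZ Z (insert u τ) : ℝ) *
          ((idx (ε : Set (Fin n → ℤ)) : ℝ) /
            ∏ b ∈ ε, ((NA (Φ.vert \ Z) b : ℝ) * s + w ⬝ᵥ toR b)) := by
    intro ε hε
    rw [Finset.mem_filter, Fan.mem_faces] at hε
    obtain ⟨h3, h4, h5⟩ := hε
    rw [eps_identity hDual hSD hSP hI Φ T Z hN hA hτ h3 h4 h5 hu₀ k hk, ← Finset.sum_mul]
    have h6 : ∏ b ∈ ε, ((NA (Φ.vert \ Z) b : ℝ) * s + w ⬝ᵥ toR b) =
        ∏ b ∈ ε, lf (Φ.vert \ Z) s w b := rfl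
    rw [h6]
    split_ifs
    · ring
    · ring
  rw [Finset.sum_congr rfl h2, Finset.sum_add_distrib, ← Finset.mul_sum, ← Finset.mul_sum,
    ← Finset.mul_sum, ← hKe, ← mul_add]
  congr 2
  rw [Finset.sum_comm' (t' := U) (s' := fun u => T.faces.filter (fun δ =>
    δ.card + (insert u τ).card = n + 1 ∧ InDual (Φ.vert \ Z) Z (insert u τ) δ))]
  · refine Finset.sum_congr rfl fun u hu => ?_
    obtain ⟨h3, h4, h5⟩ := (hU u).1 hu
    rw [← Finset.mul_sum]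
    have h6 := ih u h4 h5
    unfold Jsum at h6
    have h7 : ∑ δ ∈ T.faces.filter (fun δ =>
        δ.card + (insert u τ).card = n + 1 ∧ InDual (Φ.vert \ Z) Z (insert u τ) δ),
        (idx (δ : Set (Fin n → ℤ)) : ℝ) /
          ∏ b ∈ δ, ((NA (Φ.vert \ Z) b : ℝ) * s + w ⬝ᵥ toR b) =
        (volZ Z (insert u τ) : ℝ) * Φ.Rsum Z (insert u τ) s w := by
      rw [← h6]
    rw [h7]
    have := hvol (insert u τ)
    field_simp
  · intro ε u
    rw [hU]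
    simp only [Finset.mem_filter, Fan.mem_faces]
    constructor
    · rintro ⟨⟨h3, h4, h5⟩, h6, h7, h8, h9⟩
      have h10 := Finset.card_insert_of_notMem h7
      exact ⟨⟨h3, by omega, h9⟩, h6, h7, h8⟩
    · rintro ⟨⟨h3, h4, h5⟩, h6, h7, h8⟩
      have h10 := Finset.card_insert_of_notMem h7
      refine ⟨⟨h3, by omega, fun a ha => ⟨fun v hv => ?_, fun v hv => ?_⟩⟩, h6, h7, h8, h5⟩
      · have hv' := Finset.mem_sdiff.1 hv
        exact (h5 a ha).1 v (Finset.mem_sdiff.2 ⟨Finset.mem_insert_of_mem hv'.1, hv'.2⟩)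
      · have hv' := Finset.mem_inter.1 hv
        exact (h5 a ha).2 v (Finset.mem_inter.2 ⟨Finset.mem_insert_of_mem hv'.1, hv'.2⟩)

end G4

/-- The assembly of the primal formula, with the positivity of the indices as a hypothesis. -/
theorem primalAssembly (hI : IdxPos) : PrimalAssembly := by
  intro _ hK hLap hDual hSD hSP n Φ T Z hN hA w hw s hs ha hwT
  have key : ∀ m : ℕ, ∀ τ : Finset (Fin n → ℤ), Φ.IsFace τ → ¬ τ ⊆ Z → n ≤ τ.card + m →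
      Jsum (Φ.vert \ Z) Z T τ s w = (volZ Z τ : ℝ) * Φ.Rsum Z τ s w := by
    intro m
    induction m with
    | zero =>
        intro τ hτ hτZ hm
        refine G4.step hK hLap hDual hSD hSP hI Φ T Z hN hA hw hs ha hwT hτ hτZ ?_
        intro u hu hface
        exfalso
        obtain ⟨F, hF, hsub⟩ := hface
        have h1 := Finset.card_le_card hsub
        rw [Finset.card_insert_of_notMem hu, Φ.mx_card F hF] at h1
        omega
    | succ m ihm =>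
        intro τ hτ hτZ hm
        refine G4.step hK hLap hDual hSD hSP hI Φ T Z hN hA hw hs ha hwT hτ hτZ ?_
        intro u hu hface
        refine ihm (insert u τ) hface (fun h => hτZ (fun x hx => h (Finset.mem_insert_of_mem hx)))
          ?_
        rw [Finset.card_insert_of_notMem hu]
        omega
  intro τ hτ hτZ
  exact key n τ hτ hτZ (by omega)

end Mono
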