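import Pool.Agent.Helper50.Mono.LA

/-!
Packet G4 of MP_aa7fc1_ag: the identity of one wall.
-/

namespace Mono

namespace G4

open Finset

variable {n : ℕ}

open Classical in
theorem crd_rel {Z F : Finset (Fin n → ℤ)} (h : Indep F) (hc : F.card = n)
    {u₀ u v : Fin n → ℤ} (hu₀ : u₀ ∈ F) (hu : u ∈ F) (hv : v ≠ u₀) :
    crd F (toR (rel Z u₀ u)) v = if v = u then 1 else 0 := by
  unfold rel
  split_ifs with h1 h2 h3
  · rw [crd_toR h hu, if_pos h2]
  · rw [crd_toR h hu, if_neg h2]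
  · have h4 : crd F (toR (u - u₀)) v = crd F (toR u) v - crd F (toR u₀) v := by
      rw [toR_sub]
      exact (crdL h hc v).map_sub _ _
    rw [h4, crd_toR h hu, crd_toR h hu₀, if_pos h3, if_neg hv, sub_zero]
  · have h4 : crd F (toR (u - u₀)) v = crd F (toR u) v - crd F (toR u₀) v := by
      rw [toR_sub]
      exact (crdL h hc v).map_sub _ _
    rw [h4, crd_toR h hu, crd_toR h hu₀, if_neg h3, if_neg hv, sub_zero]

theorem rel_mem_edges {Z τ : Finset (Fin n → ℤ)} {u₀ u : Fin n → ℤ} (hu₀ : u₀ ∈ τ \ Z)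
    (hu : u ∈ τ) : rel Z u₀ u ∈ edges Z τ := by
  unfold rel
  split_ifs with h
  · exact mem_edges_Z hu h
  · exact mem_edges_sub (Finset.mem_sdiff.2 ⟨hu, h⟩) hu₀

theorem finrank_edges (Φ : Fan n) {Z τ F : Finset (Fin n → ℤ)} (hF : F ∈ Φ.mx) (hτ : τ ⊆ F)
    {u₀ : Fin n → ℤ} (hu₀ : u₀ ∈ τ \ Z) :
    Module.finrank ℝ (Submodule.span ℝ (toR '' (edges Z τ))) + 1 = τ.card := by
  classical
  have hFi := Φ.mx_indep F hF
  have hFc := Φ.mx_card F hF
  have hu₀' := Finset.mem_sdiff.1 hu₀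
  have hli : LinearIndependent ℝ (fun u : τ.erase u₀ => toR (rel Z u₀ u.1)) := by
    rw [Fintype.linearIndependent_iff]
    intro g hg v
    have hv := Finset.mem_erase.1 v.2
    have h1 := congrArg (crdL hFi hFc v.1) hg
    rw [map_sum, map_zero] at h1
    rw [Finset.sum_eq_single v] at h1
    · rw [map_smul] at h1
      have h2 : crdL hFi hFc v.1 (toR (rel Z u₀ v.1)) = 1 := by
        show crd F (toR (rel Z u₀ v.1)) v.1 = 1
        rw [crd_rel hFi hFc (hτ hu₀'.1) (hτ hv.2) hv.1, if_pos rfl]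
      rw [h2, smul_eq_mul, mul_one] at h1
      exact h1
    · intro b _ hb
      rw [map_smul]
      have hb' := Finset.mem_erase.1 b.2
      have h2 : crdL hFi hFc v.1 (toR (rel Z u₀ b.1)) = 0 := by
        show crd F (toR (rel Z u₀ b.1)) v.1 = 0
        rw [crd_rel hFi hFc (hτ hu₀'.1) (hτ hb'.2) hv.1, if_neg]
        intro h3
        exact hb (Subtype.ext h3.symm)
      rw [h2, smul_zero]
    · intro h
      exact absurd (Finset.mem_univ _) h
  have hsp : Submodule.span ℝ (toR '' (edges Z τ)) =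
      Submodule.span ℝ (Set.range (fun u : τ.erase u₀ => toR (rel Z u₀ u.1))) := by
    have key : ∀ u ∈ τ, toR (rel Z u₀ u) ∈
        Submodule.span ℝ (Set.range (fun u : τ.erase u₀ => toR (rel Z u₀ u.1))) := by
      intro u hu
      by_cases h : u = u₀
      · have h1 : rel Z u₀ u = 0 := by
          unfold rel
          rw [h, if_neg hu₀'.2, sub_self]
        rw [h1, toR_zero]
        exact Submodule.zero_mem _
      · exact Submodule.subset_span ⟨⟨u, Finset.mem_erase.2 ⟨h, hu⟩⟩, rfl⟩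
    apply le_antisymm
    · rw [Submodule.span_le]
      rintro _ ⟨e, he, rfl⟩
      rcases he with ⟨a, ha, b, hb, rfl⟩ | ⟨h1, h2⟩
      · have ha' := Finset.mem_sdiff.1 ha
        have hb' := Finset.mem_sdiff.1 hb
        have h3 : toR (a - b) = toR (rel Z u₀ a) - toR (rel Z u₀ b) := by
          unfold rel
          rw [if_neg ha'.2, if_neg hb'.2, ← toR_sub]
          congr 1
          abel
        rw [h3]
        exact Submodule.sub_mem _ (key a ha'.1) (key b hb'.1)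
      · have h3 := key e h1
        unfold rel at h3
        rwa [if_pos h2] at h3
    · rw [Submodule.span_le]
      rintro _ ⟨u, rfl⟩
      exact Submodule.subset_span ⟨_, rel_mem_edges hu₀ (Finset.mem_erase.1 u.2).2, rfl⟩
  rw [hsp, finrank_span_eq_card hli, Fintype.card_coe, Finset.card_erase_of_mem hu₀'.1]
  have : 0 < τ.card := Finset.card_pos.2 ⟨u₀, hu₀'.1⟩
  omega

theorem edges_dot {A Z τ ε : Finset (Fin n → ℤ)} (h : InDual A Z τ ε) {a : Fin n → ℤ}
    (ha : a ∈ ε) : ∀ e ∈ edges Z τ, a ⬝ᵥ e = 0 := by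
  obtain ⟨h1, h2⟩ := h a ha
  rintro e (⟨u, hu, v, hv, rfl⟩ | ⟨h3, h4⟩)
  · rw [dotProduct_sub, h1 u hu, h1 v hv, sub_self]
  · exact h2 e (Finset.mem_inter.2 ⟨h3, h4⟩)

theorem toR_mem_V {E : Set (Fin n → ℤ)} {a : Fin n → ℤ} (h : ∀ e ∈ E, a ⬝ᵥ e = 0) :
    toR a ∈ Vsp E := by
  intro e he
  rw [toR_dot, h e he, Int.cast_zero]

theorem rel_dot {A Z τ ε : Finset (Fin n → ℤ)} {u₀ u : Fin n → ℤ} (hu₀ : u₀ ∈ τ \ Z)
    (h : InDual A Z (insert u τ) ε) (h' : InDual A Z τ ε) {a : Fin n → ℤ} (ha : a ∈ ε) :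
    a ⬝ᵥ rel Z u₀ u = 0 := by
  unfold rel
  split_ifs with hZ
  · exact (h a ha).2 u (Finset.mem_inter.2 ⟨Finset.mem_insert_self _ _, hZ⟩)
  · rw [dotProduct_sub, (h a ha).1 u (Finset.mem_sdiff.2 ⟨Finset.mem_insert_self _ _, hZ⟩),
      (h' a ha).1 u₀ hu₀, sub_self]

theorem span_dot {ε : Finset (Fin n → ℤ)} {x : Fin n → ℤ} (h : ∀ a ∈ ε, a ⬝ᵥ x = 0)
    {z : Fin n → ℝ} (hz : z ∈ Submodule.span ℝ (toR '' (ε : Set (Fin n → ℤ)))) :
    z ⬝ᵥ toR x = 0 := by
  obtain ⟨c, rfl⟩ := mem_span_toR hz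
  rw [sum_dotProduct]
  exact Finset.sum_eq_zero fun u hu => by
    rw [smul_dotProduct, toR_dot, h u hu, Int.cast_zero, smul_zero]

open Classical in
theorem eps_identity (hDual : DualLattice) (hSD : SideDual) (hSP : SidePrimal) (hI : IdxPos)
    (Φ T : Fan n) (Z : Finset (Fin n → ℤ)) (hN : Φ.Newton Z) (hA : Adapted (Φ.vert \ Z) T)
    {τ ε : Finset (Fin n → ℤ)} (hτ : Φ.IsFace τ) (hε : T.IsFace ε)
    (hcard : ε.card + τ.card = n) (hID : InDual (Φ.vert \ Z) Z τ ε) {u₀ : Fin n → ℤ}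
    (hu₀ : u₀ ∈ τ \ Z) (k : Fin n → ℝ) (hk : k ∈ Vsp (edges Z τ)) :
    ∑ a ∈ T.vert.filter (fun a => a ∉ ε ∧ T.IsFace (insert a ε) ∧
        InDual (Φ.vert \ Z) Z τ (insert a ε)),
      crd (insert a ε) k a * (idx ((insert a ε : Finset (Fin n → ℤ)) : Set (Fin n → ℤ)) : ℝ) =
    (idx (ε : Set (Fin n → ℤ)) : ℝ) * (volZ Z τ : ℝ) *
      (∑ u ∈ Φ.vert.filter (fun u => u ∉ τ ∧ Φ.IsFace (insert u τ) ∧
          InDual (Φ.vert \ Z) Z (insert u τ) ε),
        (k ⬝ᵥ toR (rel Z u₀ u)) / (volZ Z (insert u τ) : ℝ) +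
        if τ.card = (cs τ).card ∧ (∀ a ∈ ε, ∀ i ∈ cs τ, a i = 0)
          then (k ⬝ᵥ toR u₀) / (idx (τ : Set (Fin n → ℤ)) : ℝ) else 0) := by
  obtain ⟨F, hF, hτF⟩ := hτ
  have hτ : Φ.IsFace τ := ⟨F, hF, hτF⟩
  have hFi := Φ.mx_indep F hF
  have hFc := Φ.mx_card F hF
  have hu₀' := Finset.mem_sdiff.1 hu₀
  have hεi : Indep ε := hε.indep
  have hrank : Module.finrank ℝ (Submodule.span ℝ (toR '' (edges Z τ))) +
      Module.finrank ℝ (Submodule.span ℝ (toR '' (ε : Set (Fin n → ℤ)))) + 1 = n := by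
    have h1 := finrank_edges Φ hF hτF hu₀
    have h2 := finrank_span_indep hεi
    omega
  obtain ⟨κ, hκE, hκ, hm0, hx⟩ := hDual n (edges Z τ) (ε : Set (Fin n → ℤ))
    (fun e he d hd => by rw [dotProduct_comm]; exact edges_dot hID hd e he) hrank
  have hm' : ∀ a : Fin n → ℤ, ∃ m : ℤ, (∀ e ∈ edges Z τ, a ⬝ᵥ e = 0) →
      a - m • κ ∈ sat (ε : Set (Fin n → ℤ)) ∧
      (m ≠ 0 → idx (insert a (ε : Set (Fin n → ℤ))) = idx (ε : Set (Fin n → ℤ)) * m.natAbs) := by
    intro a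
    by_cases h : ∀ e ∈ edges Z τ, a ⬝ᵥ e = 0
    · obtain ⟨m, h1, h2⟩ := hm0 a h
      exact ⟨m, fun _ => ⟨h1, h2⟩⟩
    · exact ⟨0, fun h' => absurd h' h⟩
  choose m hm using hm'
  -- decomposition of `k`
  have hVW : Submodule.span ℝ (insert (toR κ) (toR '' (ε : Set (Fin n → ℤ)))) =
      Vsp (edges Z τ) := by
    apply eq_V Φ hF hτF hu₀
    · rw [Submodule.span_le]
      rintro _ (rfl | ⟨a, ha, rfl⟩)
      · exact toR_mem_V hκE
      · exact toR_mem_V (edges_dot hID ha)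
    · have h1 : Submodule.span ℝ (toR '' (ε : Set (Fin n → ℤ))) <
          Submodule.span ℝ (insert (toR κ) (toR '' (ε : Set (Fin n → ℤ)))) := by
        refine lt_of_le_of_ne (Submodule.span_mono (Set.subset_insert _ _)) ?_
        intro h
        apply hκ
        rw [h]
        exact Submodule.subset_span (Set.mem_insert _ _)
      have h2 := Submodule.finrank_lt_finrank_of_lt h1
      rw [finrank_span_indep hεi] at h2
      omega
  have hk' := hk
  rw [← hVW] at hk'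
  obtain ⟨h, z, hz, hkz⟩ := Submodule.mem_span_insert.1 hk'
  -- orthogonality to `κ` and `ε`
  have hperp : ∀ x : Fin n → ℤ, (∀ a ∈ ε, a ⬝ᵥ x = 0) → κ ⬝ᵥ x = 0 →
      ∀ y ∈ Vsp (edges Z τ), y ⬝ᵥ toR x = 0 := by
    intro x h1 h2 y hy
    rw [← hVW] at hy
    obtain ⟨r, z', hz', rfl⟩ := Submodule.mem_span_insert.1 hy
    rw [add_dotProduct, smul_dotProduct, toR_dot, h2, Int.cast_zero, smul_zero, zero_add]
    exact span_dot h1 hz'
  have hkx : ∀ x : Fin n → ℤ, (∀ a ∈ ε, a ⬝ᵥ x = 0) →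
      k ⬝ᵥ toR x = h * ((κ ⬝ᵥ x : ℤ) : ℝ) := by
    intro x h1
    rw [hkz, add_dotProduct, smul_dotProduct, toR_dot, span_dot h1 hz, add_zero, smul_eq_mul]
  have hS1 := hSD n Φ T Z hN hA τ ε hτ hε hcard hID u₀ hu₀ κ hκE hκ m (fun a ha => (hm a ha).1)
  have hS2 := hSP n Φ T Z hN hA τ ε hτ hε hcard hID u₀ hu₀ κ hκE hκ
  have hS3 := hS1.trans hS2
  have hS := congrArg (fun z : ℤ => (z : ℝ)) hS3
  push_cast at hS
  have hvol : (volZ Z τ : ℝ) ≠ 0 := by
    have := hI n (edges Z τ)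
    rw [volZ_eq]
    exact_mod_cast this
  -- the terms on the left
  have hL : ∀ a ∈ T.vert.filter (fun a => a ∉ ε ∧ T.IsFace (insert a ε) ∧
        InDual (Φ.vert \ Z) Z τ (insert a ε)),
      crd (insert a ε) k a * (idx ((insert a ε : Finset (Fin n → ℤ)) : Set (Fin n → ℤ)) : ℝ) =
      h * (idx (ε : Set (Fin n → ℤ)) : ℝ) * ((m a).sign : ℝ) := by
    intro a ha
    obtain ⟨-, haε, hface, hdual⟩ := Finset.mem_filter.1 ha
    have hE := edges_dot hdual (Finset.mem_insert_self a ε)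
    obtain ⟨h1, h2⟩ := hm a hE
    have h3 := sat_span h1
    have hind : Indep (insert a ε) := hface.indep
    have hm1 : m a ≠ 0 := by
      intro h4
      rw [h4, zero_smul, sub_zero] at h3
      exact notMem_span_of_indep haε hind h3
    have hm2 : (m a : ℝ) ≠ 0 := by exact_mod_cast hm1
    rw [toR_sub, toR_zsmul] at h3
    have h5 : k = (h / m a) • toR a + (z - (h / m a) • (toR a - (m a : ℝ) • toR κ)) := by
      rw [hkz, smul_sub, smul_smul, div_mul_cancel₀ _ hm2]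
      abel
    have h6 := crd_insert_eq haε hind (Submodule.sub_mem _ hz (Submodule.smul_mem _ (h / m a) h3))
      h5
    rw [h6, Finset.coe_insert, h2 hm1]
    have h7 : ((m a).natAbs : ℝ) = (m a : ℝ) * ((m a).sign : ℝ) := by
      have h8 := Int.mul_sign_self (m a)
      have h9 : (((m a) * (m a).sign : ℤ) : ℝ) = (((m a).natAbs : ℤ) : ℝ) := by rw [h8]
      push_cast at h9
      rw [h9]
      simp
    push_cast
    rw [h7]
    field_simp
  -- the terms on the right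
  have hsg : ∀ x : Fin n → ℤ, (∀ a ∈ ε, a ⬝ᵥ x = 0) → κ ⬝ᵥ x ≠ 0 → ∀ B : Set (Fin n → ℤ),
      idx B = idx (insert x (edges Z τ)) →
      (k ⬝ᵥ toR x) / (idx B : ℝ) = h * ((κ ⬝ᵥ x).sign : ℝ) / (volZ Z τ : ℝ) := by
    intro x h1 h2 B hB
    rw [hkx x h1, hB, hx x (fun d hd => by rw [dotProduct_comm]; exact h1 d hd) h2]
    have h7 : ((κ ⬝ᵥ x : ℤ) : ℝ) = ((κ ⬝ᵥ x).sign : ℝ) * ((κ ⬝ᵥ x).natAbs : ℝ) := by
      have h8 := Int.sign_mul_natAbs (κ ⬝ᵥ x)
      have h9 : (((κ ⬝ᵥ x).sign * ((κ ⬝ᵥ x).natAbs : ℤ) : ℤ) : ℝ) = ((κ ⬝ᵥ x : ℤ) : ℝ) := by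
        rw [h8]
      rw [← h9, Int.cast_mul, Int.cast_natCast]
    have h10 : ((κ ⬝ᵥ x).natAbs : ℝ) ≠ 0 := by
      have : (κ ⬝ᵥ x).natAbs ≠ 0 := Int.natAbs_ne_zero.2 h2
      exact_mod_cast this
    rw [volZ_eq] at hvol ⊢
    rw [h7]
    push_cast
    field_simp
  have hR : ∀ u ∈ Φ.vert.filter (fun u => u ∉ τ ∧ Φ.IsFace (insert u τ) ∧
          InDual (Φ.vert \ Z) Z (insert u τ) ε),
        (k ⬝ᵥ toR (rel Z u₀ u)) / (volZ Z (insert u τ) : ℝ) =
        h * ((κ ⬝ᵥ rel Z u₀ u).sign : ℝ) / (volZ Z τ : ℝ) := by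
    intro u hu
    obtain ⟨-, huτ, hface, hdual⟩ := Finset.mem_filter.1 hu
    have h1 : ∀ a ∈ ε, a ⬝ᵥ rel Z u₀ u = 0 := fun a ha => rel_dot hu₀ hdual hID ha
    have h20 : κ ⬝ᵥ rel Z u₀ u ≠ 0 := by
      intro h2
      obtain ⟨F', hF', hF's⟩ := hface
      have hFi' := Φ.mx_indep F' hF'
      have hFc' := Φ.mx_card F' hF'
      have huF' : u ∈ F' := hF's (Finset.mem_insert_self _ _)
      have hτF' : τ ⊆ F' := fun x hx => hF's (Finset.mem_insert_of_mem hx)
      have hne : u ≠ u₀ := fun h => huτ (h ▸ hu₀'.1)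
      obtain ⟨y, hy⟩ := dot_of_linear (crdL hFi' hFc' u)
      have hyV : y ∈ Vsp (edges Z τ) := by
        apply Vsp_intro 0
        · intro v hv
          rw [hy]
          show crd F' (toR v) u = 0
          have hv' := Finset.mem_sdiff.1 hv
          rw [crd_toR hFi' (hτF' hv'.1), if_neg]
          exact fun h => huτ (h ▸ hv'.1)
        · intro v hv
          rw [hy]
          show crd F' (toR v) u = 0
          have hv' := Finset.mem_inter.1 hv
          rw [crd_toR hFi' (hτF' hv'.1), if_neg]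
          exact fun h => huτ (h ▸ hv'.1)
      have h3 := hperp _ h1 h2 y hyV
      rw [hy] at h3
      have h4 : crd F' (toR (rel Z u₀ u)) u = 0 := h3
      rw [crd_rel hFi' hFc' (hτF' hu₀'.1) huF' hne, if_pos rfl] at h4
      exact one_ne_zero h4
    exact hsg _ h1 h20 (edges Z (insert u τ)) (idx_congr (closure_edges_insert hu₀ u))
  have hR0 : (k ⬝ᵥ toR u₀) / (idx (τ : Set (Fin n → ℤ)) : ℝ) =
        h * ((κ ⬝ᵥ u₀).sign : ℝ) / (volZ Z τ : ℝ) ∨
        ¬ (τ.card = (cs τ).card ∧ (∀ a ∈ ε, ∀ i ∈ cs τ, a i = 0)) := by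
    by_cases hc : τ.card = (cs τ).card ∧ (∀ a ∈ ε, ∀ i ∈ cs τ, a i = 0)
    · left
      have h1 : ∀ a ∈ ε, a ⬝ᵥ u₀ = 0 := by
        intro a ha
        rw [dotProduct]
        refine Finset.sum_eq_zero fun i _ => ?_
        by_cases hi : u₀ i = 0
        · rw [hi, mul_zero]
        · have : i ∈ cs τ := by
            unfold cs
            exact Finset.mem_filter.2 ⟨Finset.mem_univ _, u₀, hu₀'.1, hi⟩
          rw [hc.2 a ha i this, zero_mul]
      apply hsg _ h1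
      · intro h2
        obtain ⟨y, hy⟩ := dot_of_linear (psiL Z hFi hFc)
        have hyV : y ∈ Vsp (edges Z τ) := by
          apply Vsp_intro 1
          · intro v hv
            rw [hy]
            show psi Z F (toR v) = 1
            have hv' := Finset.mem_sdiff.1 hv
            rw [psi_toR Z hFi (hτF hv'.1), if_neg hv'.2]
          · intro v hv
            rw [hy]
            show psi Z F (toR v) = 0
            have hv' := Finset.mem_inter.1 hv
            rw [psi_toR Z hFi (hτF hv'.1), if_pos hv'.2]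
        have h3 := hperp _ h1 h2 y hyV
        rw [hy] at h3
        have h4 : psi Z F (toR u₀) = 0 := h3
        rw [psi_toR Z hFi (hτF hu₀'.1), if_neg hu₀'.2] at h4
        exact one_ne_zero h4
      · exact idx_congr (closure_insert_edges hu₀)
    · exact Or.inr hc
  rw [Finset.sum_congr rfl hL, Finset.sum_congr rfl hR, ← Finset.mul_sum, hS]
  by_cases hc : τ.card = (cs τ).card ∧ (∀ a ∈ ε, ∀ i ∈ cs τ, a i = 0)
  · have h1 := hR0.resolve_right (not_not.2 hc)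
    rw [if_pos hc, if_pos hc, h1]
    rw [← Finset.sum_div, ← Finset.mul_sum]
    field_simp
  · rw [if_neg hc, if_neg hc, add_zero, add_zero]
    rw [← Finset.sum_div, ← Finset.mul_sum]
    field_simp

end G4

end Mono
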