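import Pool.Agent.Helper50.Mono.Eps

/-!
Packet G4 of MP_aa7fc1_ag: the two sides.
-/

namespace Mono

namespace G4

open Finset

variable {n : ℕ}

theorem dot_rel (Z : Finset (Fin n → ℤ)) (u₀ u : Fin n → ℤ) (k : Fin n → ℝ) :
    k ⬝ᵥ toR u = (if u ∈ Z then 0 else 1) * (k ⬝ᵥ toR u₀) + k ⬝ᵥ toR (rel Z u₀ u) := by
  unfold rel
  split_ifs with h
  · rw [zero_mul, zero_add]
  · rw [toR_sub, dotProduct_sub, one_mul]
    ring

theorem L_eq (Φ : Fan n) {Z τ F : Finset (Fin n → ℤ)} (hF : F ∈ Φ.mx) (hτF : τ ⊆ F)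
    {u₀ : Fin n → ℤ} (hu₀ : u₀ ∈ τ \ Z) {k : Fin n → ℝ} (hk : k ∈ Vsp (edges Z τ)) (s : ℝ)
    (w : Fin n → ℝ) :
    k ⬝ᵥ (s • toR u₀ + w) = (k ⬝ᵥ toR u₀) * (s + psi Z F w) +
      ∑ u ∈ F \ τ, crd F w u * (k ⬝ᵥ toR (rel Z u₀ u)) := by
  classical
  have hFi := Φ.mx_indep F hF
  have hFc := Φ.mx_card F hF
  rw [dotProduct_add, dotProduct_smul, smul_eq_mul, dot_eq_sum_crd hFi hFc k w]
  have h1 : ∑ u ∈ F, crd F w u * (k ⬝ᵥ toR u) =
      ∑ u ∈ F, crd F w u * ((if u ∈ Z then 0 else 1) * (k ⬝ᵥ toR u₀)) +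
        ∑ u ∈ F, crd F w u * (k ⬝ᵥ toR (rel Z u₀ u)) := by
    rw [← Finset.sum_add_distrib]
    exact Finset.sum_congr rfl fun u _ => by rw [dot_rel Z u₀ u k]; ring
  have h2 : ∑ u ∈ F, crd F w u * ((if u ∈ Z then 0 else 1) * (k ⬝ᵥ toR u₀)) =
      psi Z F w * (k ⬝ᵥ toR u₀) := by
    unfold psi
    rw [Finset.sum_mul, Finset.sdiff_eq_filter, Finset.sum_filter]
    refine Finset.sum_congr rfl fun u _ => ?_
    by_cases h : u ∈ Z
    · simp [h]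
    · simp [h]
  have h3 : ∑ u ∈ F, crd F w u * (k ⬝ᵥ toR (rel Z u₀ u)) =
      ∑ u ∈ F \ τ, crd F w u * (k ⬝ᵥ toR (rel Z u₀ u)) := by
    rw [← Finset.sum_sdiff hτF, add_eq_left]
    refine Finset.sum_eq_zero fun u hu => ?_
    rw [hk _ (rel_mem_edges hu₀ hu), mul_zero]
  rw [h1, h2, h3]
  ring

theorem right_side (Φ : Fan n) {Z τ : Finset (Fin n → ℤ)}
    {u₀ : Fin n → ℤ} (hu₀ : u₀ ∈ τ \ Z) {k : Fin n → ℝ} (hk : k ∈ Vsp (edges Z τ)) {s : ℝ}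
    {w : Fin n → ℝ} (hw : Φ.Generic w) (hs : ∀ F ∈ Φ.mx, s + psi Z F w ≠ 0)
    (U : Finset (Fin n → ℤ))
    (hU : ∀ u, u ∈ U ↔ u ∈ Φ.vert ∧ u ∉ τ ∧ Φ.IsFace (insert u τ)) :
    (k ⬝ᵥ (s • toR u₀ + w)) * Φ.Rsum Z τ s w = (k ⬝ᵥ toR u₀) * Φ.Esum τ w 1 +
      ∑ u ∈ U, (k ⬝ᵥ toR (rel Z u₀ u)) * Φ.Rsum Z (insert u τ) s w := by
  classical
  have h1 : ∀ F ∈ Φ.mx.filter (fun F => τ ⊆ F),
      (k ⬝ᵥ (s • toR u₀ + w)) *
        (1 / ((idx (F : Set (Fin n → ℤ)) : ℝ) * (s + psi Z F w) * ∏ u ∈ F \ τ, crd F w u)) =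
      (k ⬝ᵥ toR u₀) * (MvPolynomial.eval (crd F w) 1 /
        ((idx (F : Set (Fin n → ℤ)) : ℝ) * ∏ u ∈ F \ τ, crd F w u)) +
      ∑ u ∈ F \ τ, (k ⬝ᵥ toR (rel Z u₀ u)) *
        (1 / ((idx (F : Set (Fin n → ℤ)) : ℝ) * (s + psi Z F w) *
          ∏ v ∈ F \ insert u τ, crd F w v)) := by
    intro F hF
    obtain ⟨hF1, hF2⟩ := Finset.mem_filter.1 hF
    have hsF := hs F hF1
    have hc : ∀ u ∈ F, crd F w u ≠ 0 := fun u hu => hw.1 F hF1 u hu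
    rw [L_eq Φ hF1 hF2 hu₀ hk s w, map_one, add_mul, Finset.sum_mul]
    congr 1
    · rcases eq_or_ne (idx (F : Set (Fin n → ℤ)) : ℝ) 0 with h0 | h0
      · rw [h0]; simp
      have hP : ∏ u ∈ F \ τ, crd F w u ≠ 0 :=
        Finset.prod_ne_zero_iff.2 fun u hu => hc u (Finset.mem_sdiff.1 hu).1
      field_simp
    · refine Finset.sum_congr rfl fun u hu => ?_
      have hu' := Finset.mem_sdiff.1 hu
      have h2 : F \ insert u τ = (F \ τ).erase u := by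
        ext v
        simp only [Finset.mem_sdiff, Finset.mem_insert, Finset.mem_erase, not_or]
        tauto
      rw [h2, ← Finset.mul_prod_erase (F \ τ) (fun v => crd F w v) hu]
      rcases eq_or_ne (idx (F : Set (Fin n → ℤ)) : ℝ) 0 with h0 | h0
      · rw [h0]; simp
      have hP : ∏ v ∈ (F \ τ).erase u, crd F w v ≠ 0 :=
        Finset.prod_ne_zero_iff.2 fun v hv =>
          hc v (Finset.mem_sdiff.1 (Finset.mem_of_mem_erase hv)).1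
      have hcu := hc u hu'.1
      field_simp
  unfold Fan.Rsum Fan.Esum
  rw [Finset.mul_sum, Finset.sum_congr rfl h1, Finset.sum_add_distrib, ← Finset.mul_sum]
  congr 1
  rw [Finset.sum_comm' (t' := U) (s' := fun u => Φ.mx.filter (fun F => insert u τ ⊆ F))]
  · exact Finset.sum_congr rfl fun u _ => by rw [Finset.mul_sum]
  · intro F u
    rw [hU]
    simp only [Finset.mem_filter, Finset.mem_sdiff]
    constructor
    · rintro ⟨⟨h2, h3⟩, h4, h5⟩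
      have h6 : insert u τ ⊆ F := Finset.insert_subset h4 h3
      exact ⟨⟨h2, h6⟩, Φ.mx_sub F h2 h4, h5, F, h2, h6⟩
    · rintro ⟨⟨h2, h3⟩, -, h4, -⟩
      exact ⟨⟨h2, fun x hx => h3 (Finset.mem_insert_of_mem hx)⟩, h3 (Finset.mem_insert_self _ _),
        h4⟩

/-- The linear form of the denominators. -/
noncomputable def lf (A : Finset (Fin n → ℤ)) (s : ℝ) (w : Fin n → ℝ) (a : Fin n → ℤ) : ℝ :=
  (NA A a : ℝ) * s + w ⬝ᵥ toR a

open Classical in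
theorem left_side (Φ T : Fan n) {A Z τ : Finset (Fin n → ℤ)} (hτ : Φ.IsFace τ)
    {u₀ : Fin n → ℤ} (hu₀ : u₀ ∈ τ \ Z) {k : Fin n → ℝ} (hk : k ∈ Vsp (edges Z τ)) {s : ℝ}
    {w : Fin n → ℝ} (ha : ∀ δ ∈ T.mx, ∀ a ∈ δ, (NA A a : ℝ) * s + w ⬝ᵥ toR a ≠ 0) :
    (k ⬝ᵥ (s • toR u₀ + w)) * Jsum A Z T τ s w =
      ∑ ε ∈ T.faces.filter (fun ε => ε.card + τ.card = n ∧ InDual A Z τ ε),
        (1 / ∏ b ∈ ε, lf A s w b) *
        ∑ a ∈ T.vert.filter (fun a => a ∉ ε ∧ T.IsFace (insert a ε) ∧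
          InDual A Z τ (insert a ε)),
          crd (insert a ε) k a * (idx ((insert a ε : Finset (Fin n → ℤ)) : Set (Fin n → ℤ)) : ℝ)
    := by
  obtain ⟨F, hF, hτF⟩ := hτ
  have h1 : ∀ δ ∈ T.faces.filter (fun δ => δ.card + τ.card = n + 1 ∧ InDual A Z τ δ),
      (k ⬝ᵥ (s • toR u₀ + w)) * ((idx (δ : Set (Fin n → ℤ)) : ℝ) /
        ∏ a ∈ δ, ((NA A a : ℝ) * s + w ⬝ᵥ toR a)) =
      ∑ a ∈ δ, (1 / ∏ b ∈ δ.erase a, lf A s w b) *
        (crd δ k a * (idx (δ : Set (Fin n → ℤ)) : ℝ)) := by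
    intro δ hδ
    obtain ⟨hδ1, hδ2, hδ3⟩ := Finset.mem_filter.1 hδ
    rw [Fan.mem_faces] at hδ1
    obtain ⟨G, hG, hδG⟩ := id hδ1
    have hδi : Indep δ := hδ1.indep
    have hW : Submodule.span ℝ (toR '' (δ : Set (Fin n → ℤ))) = Vsp (edges Z τ) := by
      apply eq_V Φ hF hτF hu₀
      · rw [Submodule.span_le]
        rintro _ ⟨a, ha, rfl⟩
        exact toR_mem_V (edges_dot hδ3 ha)
      · rw [finrank_span_indep hδi]
        omega
    have hk' := hk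
    rw [← hW] at hk'
    obtain ⟨c, hc⟩ := mem_span_toR hk'
    have h2 : k ⬝ᵥ (s • toR u₀ + w) = ∑ a ∈ δ, crd δ k a * lf A s w a := by
      conv_lhs => rw [hc]
      rw [sum_dotProduct]
      refine Finset.sum_congr rfl fun a ha' => ?_
      rw [smul_dotProduct, crd_eq hδi hc ha', smul_eq_mul, dotProduct_add, dotProduct_smul,
        toR_dot, (hδ3 a ha').1 u₀ hu₀, dotProduct_comm (toR a) w, smul_eq_mul]
      unfold lf
      ring
    rw [h2, Finset.sum_mul]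
    refine Finset.sum_congr rfl fun a ha' => ?_
    have h3 : ∏ a ∈ δ, ((NA A a : ℝ) * s + w ⬝ᵥ toR a) =
        lf A s w a * ∏ b ∈ δ.erase a, lf A s w b := by
      rw [Finset.mul_prod_erase δ (fun b => lf A s w b) ha']
      rfl
    rw [h3]
    have h4 : lf A s w a ≠ 0 := ha G hG a (hδG ha')
    have h5 : ∏ b ∈ δ.erase a, lf A s w b ≠ 0 :=
      Finset.prod_ne_zero_iff.2 fun b hb => ha G hG b (hδG (Finset.mem_of_mem_erase hb))
    field_simp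
  unfold Jsum
  rw [Finset.mul_sum, Finset.sum_congr rfl h1]
  simp only [Finset.mul_sum]
  rw [Finset.sum_sigma', Finset.sum_sigma']
  refine Finset.sum_nbij' (fun p => ⟨p.1.erase p.2, p.2⟩) (fun p => ⟨insert p.2 p.1, p.2⟩)
    ?_ ?_ ?_ ?_ ?_
  · rintro ⟨δ, a⟩ hp
    simp only [Finset.mem_sigma, Finset.mem_filter, Fan.mem_faces] at hp ⊢
    obtain ⟨⟨h2, h3, h4⟩, h5⟩ := hp
    have h6 : insert a (δ.erase a) = δ := Finset.insert_erase h5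
    have h7 : (δ.erase a).card + 1 = δ.card := Finset.card_erase_add_one h5
    refine ⟨⟨Fan.IsFace.subset T h2 (Finset.erase_subset _ _), by omega, fun b hb =>
      h4 b (Finset.mem_of_mem_erase hb)⟩, Fan.IsFace.subset_vert T h2 h5, Finset.notMem_erase _ _, ?_, ?_⟩
    · rw [h6]; exact h2
    · rw [h6]; exact h4
  · rintro ⟨ε, a⟩ hp
    simp only [Finset.mem_sigma, Finset.mem_filter, Fan.mem_faces] at hp ⊢
    obtain ⟨⟨h2, h3, h4⟩, h5, h6, h7, h8⟩ := hp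
    have h9 := Finset.card_insert_of_notMem h6
    exact ⟨⟨h7, by omega, h8⟩, Finset.mem_insert_self _ _⟩
  · rintro ⟨δ, a⟩ hp
    simp only [Finset.mem_sigma, Finset.mem_filter, Fan.mem_faces] at hp
    obtain ⟨⟨h2, h3, h4⟩, h5⟩ := hp
    have h6 : insert a (δ.erase a) = δ := Finset.insert_erase h5
    simp only [h6]
  · rintro ⟨ε, a⟩ hp
    simp only [Finset.mem_sigma, Finset.mem_filter, Fan.mem_faces] at hp
    obtain ⟨⟨h2, h3, h4⟩, h5, h6, h7, h8⟩ := hp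
    simp only [Finset.erase_insert h6]
  · rintro ⟨δ, a⟩ hp
    simp only [Finset.mem_sigma, Finset.mem_filter, Fan.mem_faces] at hp
    obtain ⟨⟨h2, h3, h4⟩, h5⟩ := hp
    have h6 : insert a (δ.erase a) = δ := Finset.insert_erase h5
    simp only [h6]

end G4

end Mono
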